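import Pool.Agent.helper97.IRO.Spec

set_option autoImplicit false

/-! # DF2: the averages of the signs along an increasing sequence converge in `L²` -/

open MeasureTheory Pool.Agent.LOF

namespace Pool.Agent.IRO

section
variable {Ω : Type} [MeasurableSpace Ω]

lemma DF2_meas_eval (d : D) : Measurable fun z : Ω × (D → Bool) => z.2 d :=
  (measurable_pi_apply d).comp measurable_snd

lemma DF2_meas_ind (d : D) : Measurable fun z : Ω × (D → Bool) => ind (z.2 d) :=
  (measurable_of_countable ind).comp (DF2_meas_eval d)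

lemma DF2_ind_mem (b : Bool) : 0 ≤ ind b ∧ ind b ≤ 1 := by
  cases b <;> simp [ind]

lemma DF2_int_prod (μ : Measure (Ω × (D → Bool))) [IsFiniteMeasure μ] (a b : D) :
    ∫ z, ind (z.2 a) * ind (z.2 b) ∂μ = (μ {z | z.2 a = true ∧ z.2 b = true}).toReal := by
  have hS : MeasurableSet {z : Ω × (D → Bool) | z.2 a = true ∧ z.2 b = true} :=
    (DF2_meas_eval a (measurableSet_singleton true)).inter
      (DF2_meas_eval b (measurableSet_singleton true))
  have h1 : (fun z : Ω × (D → Bool) => ind (z.2 a) * ind (z.2 b)) =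
      Set.indicator {z : Ω × (D → Bool) | z.2 a = true ∧ z.2 b = true} (fun _ => (1 : ℝ)) := by
    funext z
    by_cases ha : z.2 a = true
    · by_cases hb : z.2 b = true
      · rw [Set.indicator_of_mem (show z ∈ {z : Ω × (D → Bool) | z.2 a = true ∧ z.2 b = true} from
          ⟨ha, hb⟩), ha, hb]
        simp [ind]
      · rw [Set.indicator_of_notMem (fun h => hb h.2)]
        rw [Bool.not_eq_true] at hb
        rw [hb]
        simp [ind]
    · rw [Set.indicator_of_notMem (fun h => ha h.1)]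
      rw [Bool.not_eq_true] at ha
      rw [ha]
      simp [ind]
  rw [h1, integral_indicator_const _ hS]
  simp [Measure.real]

lemma DF2_memLp (μ : Measure (Ω × (D → Bool))) [IsFiniteMeasure μ] (d : D) :
    MemLp (fun z : Ω × (D → Bool) => ind (z.2 d)) 2 μ := by
  refine MemLp.of_bound (DF2_meas_ind d).aestronglyMeasurable 1 (Filter.Eventually.of_forall ?_)
  intro z
  rw [Real.norm_eq_abs, abs_le]
  have := DF2_ind_mem (z.2 d)
  exact ⟨by linarith, this.2⟩

lemma DF2_integrable (μ : Measure (Ω × (D → Bool))) [IsFiniteMeasure μ] (a b : D) :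
    Integrable (fun z : Ω × (D → Bool) => ind (z.2 a) * ind (z.2 b)) μ := by
  refine Integrable.of_bound ((DF2_meas_ind a).mul (DF2_meas_ind b)).aestronglyMeasurable 1
    (Filter.Eventually.of_forall ?_)
  intro z
  have h1 := DF2_ind_mem (z.2 a)
  have h2 := DF2_ind_mem (z.2 b)
  rw [Real.norm_eq_abs, abs_le]
  constructor
  · have := mul_nonneg h1.1 h2.1
    linarith
  · calc ind (z.2 a) * ind (z.2 b) ≤ 1 * 1 := mul_le_mul h1.2 h2.2 h2.1 zero_le_one
      _ = 1 := one_mul 1

/-- the second moments -/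
lemma DF2_moment (h : DF1_stmt) (μ : Measure (Ω × (D → Bool))) [IsFiniteMeasure μ]
    (hμ : InvS Ω μ) (e : ℕ → D) (he : StrictMono fun i => (e i).1) :
    ∃ p c : ℝ, ∀ i j, ∫ z, ind (z.2 (e i)) * ind (z.2 (e j)) ∂μ = if i = j then p else c := by
  refine ⟨(μ {z | z.2 (e 0) = true ∧ z.2 (e 0) = true}).toReal,
    (μ {z | z.2 (e 0) = true ∧ z.2 (e 1) = true}).toReal, ?_⟩
  have hlt : ∀ i j, i < j → μ {z | z.2 (e i) = true ∧ z.2 (e j) = true} =
      μ {z | z.2 (e 0) = true ∧ z.2 (e 1) = true} := by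
    intro i j hij
    have hmono : ∀ a b, a < b → StrictMono fun k => ((![e a, e b] : Fin 2 → D) k).1 := by
      intro a b hab
      rw [Fin.strictMono_iff_lt_succ]
      intro k
      have hk : k = 0 := Subsingleton.elim _ _
      subst hk
      exact he hab
    have h1 := h Ω μ hμ 2 ![e i, e j] ![e 0, e 1] ![true, true] Set.univ MeasurableSet.univ
      (hmono i j hij) (hmono 0 1 Nat.zero_lt_one)
    have h2 : ∀ a b : ℕ, {z : Ω × (D → Bool) | z.1 ∈ Set.univ ∧
        ∀ k, z.2 ((![e a, e b] : Fin 2 → D) k) = (![true, true] : Fin 2 → Bool) k} =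
        {z | z.2 (e a) = true ∧ z.2 (e b) = true} := by
      intro a b
      ext z
      simp [Fin.forall_fin_two]
    rw [h2, h2] at h1
    exact h1
  have heq : ∀ i, μ {z | z.2 (e i) = true ∧ z.2 (e i) = true} =
      μ {z | z.2 (e 0) = true ∧ z.2 (e 0) = true} := by
    intro i
    have hmono : ∀ a : ℕ, StrictMono fun k => ((fun _ => e a : Fin 1 → D) k).1 := by
      intro a x y hxy
      exact absurd hxy (by rw [Subsingleton.elim x y]; exact lt_irrefl _)
    have h1 := h Ω μ hμ 1 (fun _ => e i) (fun _ => e 0) (fun _ => true) Set.univ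
      MeasurableSet.univ (hmono i) (hmono 0)
    have h2 : ∀ a : ℕ, {z : Ω × (D → Bool) | z.1 ∈ Set.univ ∧
        ∀ k, z.2 ((fun _ => e a : Fin 1 → D) k) = (fun _ => true : Fin 1 → Bool) k} =
        {z | z.2 (e a) = true ∧ z.2 (e a) = true} := by
      intro a
      ext z
      simp
    rw [h2, h2] at h1
    exact h1
  intro i j
  rw [DF2_int_prod]
  rcases lt_trichotomy i j with hij | hij | hij
  · rw [if_neg hij.ne, hlt i j hij]
  · subst hij
    rw [if_pos rfl, heq]
  · rw [if_neg hij.ne', ← hlt j i hij]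
    congr 2
    ext z
    exact and_comm

lemma DF2_square (μ : Measure (Ω × (D → Bool))) [IsFiniteMeasure μ] (e : ℕ → D) (p c : ℝ)
    (hpc : ∀ i j, ∫ z, ind (z.2 (e i)) * ind (z.2 (e j)) ∂μ = if i = j then p else c)
    (s : Finset ℕ) (w : ℕ → ℝ) :
    ∫ z, (∑ i ∈ s, w i * ind (z.2 (e i))) ^ 2 ∂μ =
      c * (∑ i ∈ s, w i) ^ 2 + (p - c) * ∑ i ∈ s, w i ^ 2 := by
  have h1 : ∀ z : Ω × (D → Bool), (∑ i ∈ s, w i * ind (z.2 (e i))) ^ 2 =
      ∑ i ∈ s, ∑ j ∈ s, (w i * w j) * (ind (z.2 (e i)) * ind (z.2 (e j))) := by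
    intro z
    rw [sq, Finset.sum_mul_sum]
    refine Finset.sum_congr rfl fun i _ => Finset.sum_congr rfl fun j _ => by ring
  simp_rw [h1]
  rw [integral_finsetSum _ fun i _ => integrable_finsetSum _ fun j _ =>
    (DF2_integrable μ (e i) (e j)).const_mul _]
  have h2 : ∀ i ∈ s, ∫ z, ∑ j ∈ s, (w i * w j) * (ind (z.2 (e i)) * ind (z.2 (e j))) ∂μ =
      c * w i * (∑ j ∈ s, w j) + (p - c) * w i ^ 2 := by
    intro i hi
    rw [integral_finsetSum _ fun j _ => (DF2_integrable μ (e i) (e j)).const_mul _]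
    have h3 : ∀ j ∈ s, ∫ z, (w i * w j) * (ind (z.2 (e i)) * ind (z.2 (e j))) ∂μ =
        c * w i * w j + (if i = j then (p - c) * w i ^ 2 else 0) := by
      intro j _
      rw [integral_const_mul, hpc]
      by_cases hij : i = j
      · subst hij
        rw [if_pos rfl, if_pos rfl]; ring
      · rw [if_neg hij, if_neg hij]; ring
    rw [Finset.sum_congr rfl h3, Finset.sum_add_distrib, ← Finset.mul_sum, Finset.sum_ite_eq,
      if_pos hi]
  rw [Finset.sum_congr rfl h2, Finset.sum_add_distrib, ← Finset.mul_sum, ← Finset.sum_mul,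
    ← Finset.mul_sum]
  ring

/-- the average -/
noncomputable def DF2_avg (e : ℕ → D) (N : ℕ) (z : Ω × (D → Bool)) : ℝ :=
  (∑ i ∈ Finset.range N, ind (z.2 (e i))) / N

lemma DF2_avg_meas (e : ℕ → D) (N : ℕ) : Measurable (DF2_avg (Ω := Ω) e N) := by
  unfold DF2_avg
  exact (Finset.measurable_sum _ fun i _ => DF2_meas_ind (e i)).div_const _

omit [MeasurableSpace Ω] in
lemma DF2_avg_mem (e : ℕ → D) (N : ℕ) (z : Ω × (D → Bool)) :
    0 ≤ DF2_avg e N z ∧ DF2_avg e N z ≤ 1 := by
  unfold DF2_avg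
  rcases Nat.eq_zero_or_pos N with h | h
  · subst h; simp
  · have hN : (0 : ℝ) < N := by exact_mod_cast h
    constructor
    · exact div_nonneg (Finset.sum_nonneg fun i _ => (DF2_ind_mem _).1) hN.le
    · rw [div_le_one hN]
      calc ∑ i ∈ Finset.range N, ind (z.2 (e i)) ≤ ∑ i ∈ Finset.range N, (1 : ℝ) :=
            Finset.sum_le_sum fun i _ => (DF2_ind_mem _).2
        _ = N := by simp

lemma DF2_avg_memLp (μ : Measure (Ω × (D → Bool))) [IsFiniteMeasure μ] (e : ℕ → D) (N : ℕ) :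
    MemLp (DF2_avg (Ω := Ω) e N) 2 μ := by
  refine MemLp.of_bound (DF2_avg_meas e N).aestronglyMeasurable 1 (Filter.Eventually.of_forall ?_)
  intro z
  rw [Real.norm_eq_abs, abs_le]
  have := DF2_avg_mem e N z
  exact ⟨by linarith, this.2⟩

lemma DF2_norm (μ : Measure (Ω × (D → Bool))) [IsFiniteMeasure μ] (f : Ω × (D → Bool) → ℝ)
    (hf : MemLp f 2 μ) : ‖hf.toLp f‖ ^ 2 = ∫ z, f z ^ 2 ∂μ := by
  rw [← real_inner_self_eq_norm_sq, MeasureTheory.L2.inner_def]
  refine integral_congr_ae ?_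
  filter_upwards [hf.coeFn_toLp] with z hz
  rw [hz]
  simp [sq]

omit [MeasurableSpace Ω] in
lemma DF2_avg_eq (e : ℕ → D) (N M : ℕ) (h : N ≤ M) (z : Ω × (D → Bool)) :
    DF2_avg e N z = ∑ i ∈ Finset.range M, (if i < N then 1 / (N : ℝ) else 0) * ind (z.2 (e i)) := by
  unfold DF2_avg
  have h1 : Finset.range N ⊆ Finset.range M := Finset.range_subset_range.2 h
  rw [← Finset.sum_subset h1, Finset.sum_div]
  · refine Finset.sum_congr rfl fun i hi => ?_
    rw [if_pos (Finset.mem_range.1 hi)]; ring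
  · intro i _ hi
    rw [if_neg (fun h2 => hi (Finset.mem_range.2 h2)), zero_mul]

lemma DF2_wsum (N M : ℕ) (h : N ≤ M) (x : ℝ) :
    ∑ i ∈ Finset.range M, (if i < N then x else 0) = N * x := by
  rw [← Finset.sum_filter]
  have : (Finset.range M).filter (fun i => i < N) = Finset.range N := by
    ext i
    simp only [Finset.mem_filter, Finset.mem_range]
    constructor
    · exact fun h => h.2
    · exact fun h1 => ⟨by omega, h1⟩
  rw [this, Finset.sum_const, Finset.card_range, nsmul_eq_mul]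

lemma DF2_diff (μ : Measure (Ω × (D → Bool))) [IsFiniteMeasure μ] (e : ℕ → D) (p c : ℝ)
    (hpc : ∀ i j, ∫ z, ind (z.2 (e i)) * ind (z.2 (e j)) ∂μ = if i = j then p else c)
    (n m K : ℕ) (hK : 1 ≤ K) (hn : K ≤ n) (hm : K ≤ m) :
    ∫ z, (DF2_avg e n z - DF2_avg e m z) ^ 2 ∂μ ≤ |p - c| * (4 / K) := by
  set w : ℕ → ℝ := fun i => (if i < n then 1 / (n : ℝ) else 0) - (if i < m then 1 / (m : ℝ) else 0)
    with hw
  have hK' : (0 : ℝ) < K := by exact_mod_cast hK
  have hn' : (0 : ℝ) < n := by exact_mod_cast lt_of_lt_of_le hK hn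
  have hm' : (0 : ℝ) < m := by exact_mod_cast lt_of_lt_of_le hK hm
  have h1 : ∀ z : Ω × (D → Bool), (DF2_avg e n z - DF2_avg e m z) =
      ∑ i ∈ Finset.range (n + m), w i * ind (z.2 (e i)) := by
    intro z
    rw [DF2_avg_eq e n (n + m) (by omega), DF2_avg_eq e m (n + m) (by omega),
      ← Finset.sum_sub_distrib]
    refine Finset.sum_congr rfl fun i _ => ?_
    rw [hw]; ring
  simp_rw [h1]
  rw [DF2_square μ e p c hpc]
  have h2 : ∑ i ∈ Finset.range (n + m), w i = 0 := by
    rw [hw, Finset.sum_sub_distrib, DF2_wsum n (n + m) (by omega), DF2_wsum m (n + m) (by omega)]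
    field_simp
    ring
  have h3 : ∑ i ∈ Finset.range (n + m), w i ^ 2 ≤ 4 / K := by
    have h4 : ∀ i ∈ Finset.range (n + m), w i ^ 2 ≤
        (if i < n then 2 * (1 / (n : ℝ)) ^ 2 else 0) + (if i < m then 2 * (1 / (m : ℝ)) ^ 2 else 0) := by
      intro i _
      rw [hw]
      simp only
      split_ifs <;> nlinarith [sq_nonneg (1 / (n : ℝ) + 1 / (m : ℝ)), sq_nonneg (1 / (n : ℝ)),
        sq_nonneg (1 / (m : ℝ))]
    refine le_trans (Finset.sum_le_sum h4) ?_
    rw [Finset.sum_add_distrib, DF2_wsum n (n + m) (by omega), DF2_wsum m (n + m) (by omega)]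
    have e1 : (n : ℝ) * (2 * (1 / (n : ℝ)) ^ 2) = 2 / n := by field_simp
    have e2 : (m : ℝ) * (2 * (1 / (m : ℝ)) ^ 2) = 2 / m := by field_simp
    rw [e1, e2]
    have e3 : (2 : ℝ) / n ≤ 2 / K := by
      apply div_le_div_of_nonneg_left (by norm_num) hK'
      exact_mod_cast hn
    have e4 : (2 : ℝ) / m ≤ 2 / K := by
      apply div_le_div_of_nonneg_left (by norm_num) hK'
      exact_mod_cast hm
    have e5 : (4 : ℝ) / K = 2 / K + 2 / K := by ring
    linarith
  have h5 : 0 ≤ ∑ i ∈ Finset.range (n + m), w i ^ 2 := Finset.sum_nonneg fun i _ => sq_nonneg _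
  rw [h2]
  calc c * 0 ^ 2 + (p - c) * ∑ i ∈ Finset.range (n + m), w i ^ 2
      = (p - c) * ∑ i ∈ Finset.range (n + m), w i ^ 2 := by ring
    _ ≤ |p - c| * ∑ i ∈ Finset.range (n + m), w i ^ 2 :=
        mul_le_mul_of_nonneg_right (le_abs_self _) h5
    _ ≤ |p - c| * (4 / K) := mul_le_mul_of_nonneg_left h3 (abs_nonneg _)

end

theorem DF2 (h : DF1_stmt) : DF2_stmt := by
  intro Ω _ μ _ hμ e he
  obtain ⟨p, c, hpc⟩ := DF2_moment h μ hμ e he
  set f : ℕ → Lp ℝ 2 μ := fun N => (DF2_avg_memLp μ e (N + 1)).toLp (DF2_avg e (N + 1)) with hf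
  have hcau : CauchySeq f := by
    refine cauchySeq_of_le_tendsto_0 (fun N => Real.sqrt (|p - c| * (4 / ((N + 1 : ℕ) : ℝ)))) ?_ ?_
    · intro n m N hn hm
      rw [dist_eq_norm]
      apply Real.le_sqrt_of_sq_le
      have h1 : f n - f m = ((DF2_avg_memLp μ e (n + 1)).sub (DF2_avg_memLp μ e (m + 1))).toLp
          (DF2_avg e (n + 1) - DF2_avg e (m + 1)) := by
        rw [hf, MemLp.toLp_sub]
      rw [h1, DF2_norm]
      exact DF2_diff μ e p c hpc (n + 1) (m + 1) (N + 1) (by omega) (by omega) (by omega)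
    · have h1 : Filter.Tendsto (fun N : ℕ => |p - c| * (4 / ((N + 1 : ℕ) : ℝ))) Filter.atTop
          (nhds 0) := by
        have h2 : Filter.Tendsto (fun N : ℕ => (4 : ℝ) / ((N + 1 : ℕ) : ℝ)) Filter.atTop
            (nhds 0) :=
          (tendsto_const_div_atTop_nhds_zero_nat 4).comp (Filter.tendsto_add_atTop_nat 1)
        have h3 := h2.const_mul |p - c|
        rwa [mul_zero] at h3
      have h4 := (Real.continuous_sqrt.tendsto 0).comp h1
      rw [Real.sqrt_zero] at h4
      exact h4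
  obtain ⟨g, hg⟩ := cauchySeq_tendsto_of_complete hcau
  -- a measurable representative
  have hgm := (Lp.aestronglyMeasurable g)
  set g0 : Ω × (D → Bool) → ℝ := hgm.mk g with hg0
  have hg0m : Measurable g0 := hgm.stronglyMeasurable_mk.measurable
  have hg0e : (g : Ω × (D → Bool) → ℝ) =ᵐ[μ] g0 := hgm.ae_eq_mk
  refine ⟨fun z => Set.projIcc 0 1 zero_le_one (g0 z),
    (continuous_projIcc.measurable).comp hg0m, ?_⟩
  rw [← Filter.tendsto_add_atTop_iff_nat 1]
  have hlim : Filter.Tendsto (fun N => ‖f N - g‖ ^ 2) Filter.atTop (nhds 0) := by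
    have h1 := (tendsto_iff_norm_sub_tendsto_zero.1 hg).pow 2
    rwa [zero_pow two_ne_zero] at h1
  refine squeeze_zero (fun N => integral_nonneg fun z => sq_nonneg _) (fun N => ?_) hlim
  -- the comparison
  have hgL : MemLp (g : Ω × (D → Bool) → ℝ) 2 μ := Lp.memLp g
  have h1 : f N - g = ((DF2_avg_memLp μ e (N + 1)).sub hgL).toLp
      (DF2_avg e (N + 1) - (g : Ω × (D → Bool) → ℝ)) := by
    rw [MemLp.toLp_sub (DF2_avg_memLp μ e (N + 1)) hgL, Lp.toLp_coeFn g hgL]
  rw [h1, DF2_norm]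
  have hint : Integrable (fun z => (DF2_avg e (N + 1) z - g z) ^ 2) μ := by
    have := ((DF2_avg_memLp μ e (N + 1)).sub hgL).integrable_sq
    exact this
  refine integral_mono_ae ?_ hint ?_
  · refine Integrable.of_bound ?_ 1 (Filter.Eventually.of_forall ?_)
    · refine Measurable.aestronglyMeasurable ?_
      exact ((DF2_avg_meas e (N + 1)).sub (measurable_subtype_coe.comp
        ((continuous_projIcc.measurable).comp hg0m))).pow_const 2
    · intro z
      have h2 := DF2_avg_mem e (N + 1) z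
      have h3 := (Set.projIcc (0 : ℝ) 1 zero_le_one (g0 z)).2
      have h4 : |DF2_avg e (N + 1) z - (Set.projIcc (0 : ℝ) 1 zero_le_one (g0 z)).1| ≤ 1 := by
        rw [abs_le]
        constructor
        · linarith [h3.1, h3.2, h2.1, h2.2]
        · linarith [h3.1, h3.2, h2.1, h2.2]
      have h5 : (DF2_avg e (N + 1) z - (Set.projIcc (0 : ℝ) 1 zero_le_one (g0 z)).1) ^ 2 ≤ 1 := by
        rw [← sq_abs]
        exact pow_le_one₀ (abs_nonneg _) h4
      rw [Real.norm_eq_abs, abs_of_nonneg (sq_nonneg _)]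
      exact h5
  · filter_upwards [hg0e] with z hz
    show (DF2_avg e (N + 1) z - (Set.projIcc (0 : ℝ) 1 zero_le_one (g0 z)).1) ^ 2 ≤
      (DF2_avg e (N + 1) z - g z) ^ 2
    rw [hz, ← sq_abs, ← sq_abs (DF2_avg e (N + 1) z - g0 z)]
    refine pow_le_pow_left₀ (abs_nonneg _) ?_ 2
    obtain ⟨h2, h3⟩ := DF2_avg_mem e (N + 1) z
    rw [Set.coe_projIcc]
    rcases le_total (g0 z) 1 with h4 | h4
    · rw [min_eq_right h4]
      rcases le_total 0 (g0 z) with h5 | h5
      · rw [max_eq_right h5]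
      · rw [max_eq_left h5, sub_zero, abs_of_nonneg h2]
        rw [abs_of_nonneg (by linarith)]
        linarith
    · rw [min_eq_left h4, max_eq_right zero_le_one, abs_of_nonpos (by linarith),
        abs_of_nonpos (by linarith)]
      linarith

end Pool.Agent.IRO
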