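import Pool.Agent.helper97.IRO.Spec

set_option autoImplicit false

/-! # GE2: sibling intervals -/

namespace Pool.Agent.IRO

/-- comparison of two dyadic fractions, the first with odd numerator -/
lemma GE2_aux {M m a b : ℕ} (hm : m ≤ M) (ha : a % 2 = 1)
    (h : (a : ℝ) / 2 ^ M = (b : ℝ) / 2 ^ m) : m = M ∧ a = b := by
  obtain ⟨d, rfl⟩ := Nat.exists_eq_add_of_le hm
  have h1 : (a : ℝ) = (b : ℝ) * 2 ^ d := by
    have h2 : (2 : ℝ) ^ m ≠ 0 := by positivity
    have h3 : (2 : ℝ) ^ d ≠ 0 := by positivity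
    rw [div_eq_div_iff (by positivity) h2, pow_add] at h
    have h4 : (a : ℝ) * 2 ^ m = ((b : ℝ) * 2 ^ d) * 2 ^ m := by rw [h]; ring
    exact mul_right_cancel₀ h2 h4
  have h2 : a = b * 2 ^ d := by exact_mod_cast h1
  rcases Nat.eq_zero_or_pos d with hd | hd
  · subst hd
    simp at h2
    exact ⟨by simp, h2⟩
  · exfalso
    obtain ⟨e, rfl⟩ := Nat.exists_eq_succ_of_ne_zero hd.ne'
    rw [pow_succ, ← mul_assoc] at h2
    omega

theorem GE2 : GE2_stmt := by
  classical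
  intro N p hN h0 h1 hp
  choose! m k hmk using hp
  obtain ⟨i0, hi0, hmax⟩ := Finset.exists_max_image (Finset.range N) m ⟨0, by
    rw [Finset.mem_range]; omega⟩
  rw [Finset.mem_range] at hi0
  have hmax' : ∀ i < N, m i ≤ m i0 := fun i hi => hmax i (Finset.mem_range.2 hi)
  obtain ⟨hA, hB⟩ := hmk i0 hi0
  -- the largest level is positive
  have hM : 1 ≤ m i0 := by
    by_contra hcon
    have hz : m i0 = 0 := by omega
    have hind : ∀ i, i ≤ N → p i = i := by
      intro i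
      induction i with
      | zero => intro _; simpa using h0
      | succ i ih =>
        intro hi
        have h3 := hmax' i (by omega)
        have h4 : m i = 0 := by omega
        obtain ⟨h5, h6⟩ := hmk i (by omega)
        rw [h4] at h5 h6
        rw [h6, Nat.cast_add, Nat.cast_one, ← ih (by omega), h5]
        simp
    have h3 := hind N le_rfl
    rw [h1] at h3
    have h4 : (2 : ℝ) ≤ (N : ℝ) := by exact_mod_cast hN
    linarith
  rcases Nat.even_or_odd' (k i0) with ⟨j, hj | hj⟩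
  · -- even
    have hc : ((k i0 : ℕ) : ℝ) = 2 * (j : ℝ) := by rw [hj]; push_cast; ring
    have hB' : p (i0 + 1) = ((2 * j + 1 : ℕ) : ℝ) / 2 ^ (m i0) := by
      rw [hB, hc]; push_cast; ring
    have hlt : i0 + 1 < N := by
      by_contra hcon
      have h3 : i0 + 1 = N := by omega
      rw [h3, h1] at hB'
      have h4 : ((2 * j + 1 : ℕ) : ℝ) / 2 ^ (m i0) = ((1 : ℕ) : ℝ) / 2 ^ 0 := by
        rw [← hB']; simp
      have h5 := (GE2_aux (Nat.zero_le _) (by omega) h4).1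
      omega
    obtain ⟨hC, hD⟩ := hmk (i0 + 1) hlt
    have h5 : ((2 * j + 1 : ℕ) : ℝ) / 2 ^ (m i0) = ((k (i0 + 1) : ℕ) : ℝ) / 2 ^ (m (i0 + 1)) := by
      rw [← hB', hC]
    obtain ⟨h6, h7⟩ := GE2_aux (hmax' _ hlt) (by omega) h5
    refine ⟨i0, m i0, j, by omega, ?_, ?_, ?_⟩
    · rw [hA, hc]
    · rw [hB, hc]
    · rw [show i0 + 2 = i0 + 1 + 1 from rfl, hD, ← h7, h6]
      push_cast
      ring
  · -- odd
    have hc : ((k i0 : ℕ) : ℝ) = 2 * (j : ℝ) + 1 := by rw [hj]; push_cast; ring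
    have hpos : i0 ≠ 0 := by
      rintro rfl
      rw [h0, hc] at hA
      have h3 : (0 : ℝ) < (2 * (j : ℝ) + 1) / 2 ^ m 0 := by positivity
      linarith
    obtain ⟨i, rfl⟩ := Nat.exists_eq_succ_of_ne_zero hpos
    have hi : i < N := by omega
    obtain ⟨hC, hD⟩ := hmk i hi
    have h5 : ((2 * j + 1 : ℕ) : ℝ) / 2 ^ (m (i + 1)) = ((k i + 1 : ℕ) : ℝ) / 2 ^ (m i) := by
      have h6 : p (i + 1) = ((2 * j + 1 : ℕ) : ℝ) / 2 ^ (m (i + 1)) := by
        have h7 : p (i + 1) = ((k (i + 1) : ℕ) : ℝ) / 2 ^ (m (i + 1)) := hA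
        rw [h7]
        have h8 : k (i + 1) = 2 * j + 1 := hj
        rw [h8]
      rw [← h6, hD]; push_cast; ring
    obtain ⟨h6, h7⟩ := GE2_aux (hmax' _ hi) (by omega) h5
    have h8 : k i = 2 * j := by omega
    refine ⟨i, m i, j, by omega, ?_, ?_, ?_⟩
    · rw [hC, h8]; push_cast; ring
    · rw [hD, h8]; push_cast; ring
    · have h9 : p (i + 2) = ((k (i + 1) : ℕ) + 1 : ℝ) / 2 ^ (m (i + 1)) := hB
      rw [h9]
      have h10 : ((k (i + 1) : ℕ) : ℝ) = 2 * (j : ℝ) + 1 := hc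
      have h11 : m i = m (i + 1) := h6
      rw [h10, h11]
      ring

end Pool.Agent.IRO
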