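import Pool.Agent.helper97.IRO.Spec

set_option autoImplicit false

/-! # ME1: almost every order of an invariant random order is Conradian -/

open MeasureTheory Pool.Agent.LOF

namespace Pool.Agent.IRO

lemma ME1_meas_conj (g : F) : Measurable (conj g : LO F → LO F) := by
  apply Measurable.subtype_mk
  rw [measurable_pi_iff]
  intro p
  exact (measurable_pi_apply (p.1 * g, p.2 * g)).comp measurable_subtype_coe

lemma ME1_meas_Pr (f : F) : MeasurableSet {r : LO F | Pr r f} := by
  have h1 : Measurable fun r : LO F => r.1 (1, f) :=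
    (measurable_pi_apply ((1 : F), f)).comp measurable_subtype_coe
  exact h1 (measurableSet_singleton true)

lemma ME1_conj_mul (g h : F) (r : LO F) : conj g (conj h r) = conj (g * h) r := by
  apply Pr_inj
  intro k
  rw [Pr_conj, Pr_conj, Pr_conj, mul_inv_rev]
  simp only [mul_assoc]

lemma ME1_conj_one (r : LO F) : conj 1 r = r := by
  apply Pr_inj
  intro k
  rw [Pr_conj]
  simp

lemma ME1_iter (g : F) (n : ℕ) (r : LO F) : (conj g)^[n] r = conj (g ^ n) r := by
  induction n generalizing r with
  | zero => simp [ME1_conj_one]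
  | succ n ih =>
    rw [Function.iterate_succ_apply, ih, ME1_conj_mul, pow_succ]

theorem ME1 : ME1_stmt := by
  intro ν _ hν
  have hcnt : Countable (F × F) := inferInstance
  have hmain : ∀ q : F × F, ∀ᵐ r ∂ν, Pr r q.1 → Pr r q.2 →
      ∃ n : ℕ, Pr r (q.2⁻¹ * q.1 * q.2 ^ n) := by
    rintro ⟨f, g⟩
    have hmp : MeasurePreserving (conj g : LO F → LO F) ν ν := ⟨ME1_meas_conj g, hν g⟩
    have hcons := hmp.conservative
    have hae := hcons.ae_mem_imp_frequently_image_mem (ME1_meas_Pr f).nullMeasurableSet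
    filter_upwards [hae] with r hr hf hg
    have h1 := hr hf
    obtain ⟨n, hn, hn1⟩ := (h1.and_eventually (Filter.eventually_ge_atTop 1)).exists
    rw [ME1_iter] at hn
    have hn' : Pr r ((g ^ n)⁻¹ * f * g ^ n) := (Pr_conj r (g ^ n) f).1 hn
    refine ⟨n, ?_⟩
    show Pr r (g⁻¹ * f * g ^ n)
    have hc := cone_LO r
    have e : g⁻¹ * f * g ^ n = g ^ (n - 1) * ((g ^ n)⁻¹ * f * g ^ n) := by
      obtain ⟨m, rfl⟩ := Nat.exists_eq_add_of_le hn1
      rw [Nat.add_sub_cancel_left, pow_add, pow_one]
      group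
    rw [e]
    rcases Nat.eq_zero_or_pos (n - 1) with h0 | h0
    · rw [h0, pow_zero, one_mul]; exact hn'
    · exact hc.mul _ _ (hc.pow hg h0) hn'
  rw [← ae_all_iff] at hmain
  filter_upwards [hmain] with r hr f g hf hg
  exact hr (f, g) hf hg

end Pool.Agent.IRO
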